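import Pool.Agent.H11.BE.Drop

/-!
# Module Lev (MP_187c26_nt, THEOREM VR+): from a number field `K` to `ℚ`

PROOF. `E = fld ξ x = ℚ(ξ, x)`, `K₀` = the image of `K` in `Ω` as an intermediate field of `Ω / ℚ` (`(IsScalarTower.toAlgHom ℚ K Ω).fieldRange`), of degree `[K : ℚ]`.
`N = IntermediateField.adjoin K ({ξ} ∪ Set.range x)`. As sets `N = E ⊔ K₀ =: E'` (`IntermediateField.restrictScalars_adjoin…`, or both inclusions by `adjoin_le_iff` /
`Subfield.closure`; only `E' ⊇ N`, i.e. the coefficients of `minpoly N a` lie in `E'`, is needed: the degree of `a` over `E'` is at most the one over `N`, model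
`deg_le_of_coeff` in `Pool/Agent/H69/BD/Vfam.lean`). `[E' : ℚ] ≤ [E : ℚ] [K₀ : ℚ]` (`IntermediateField.finrank_sup_le`), so `[E' : E] ≤ [K : ℚ]` (tower, cancel `[E : ℚ] > 0`; `E` is
finite over `ℚ`: `hfin`). `[E(a) : E] ≤ [E'(a) : E] = [E' : E] [E'(a) : E'] ≤ [K : ℚ] [N(a) : N]`. Model: `degQ_le` in `Pool/Agent/H69/BD/Vmain.lean`.
-/

set_option autoImplicit false

open Polynomial NumberField IntermediateField

namespace Pool.Agent.H11.BE

theorem deg_lev (K Ω : Type) [Field K] [NumberField K] [Field Ω] [CharZero Ω] [Algebra K Ω]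
    [Algebra.IsAlgebraic K Ω] {r : ℕ} (ξ : Ω) (x : Fin r → Ω)
    (hfin : FiniteDimensional ℚ (fld ξ x)) (a : Ω) :
    dgr ξ x a ≤ Module.finrank ℚ K *
      (minpoly (IntermediateField.adjoin K ({ξ} ∪ Set.range x)) a).natDegree := by
  obtain ⟨θ, h1⟩ : ∃ θ : Ω, fld ξ x = ℚ⟮θ⟯ := by
    obtain ⟨α, hα⟩ := Field.exists_primitive_element ℚ (fld ξ x)
    refine ⟨α, ?_⟩
    have h3 := IntermediateField.lift_adjoin_simple ℚ (fld ξ x) α
    refine Eq.trans ?_ h3
    refine (IntermediateField.lift_top ℚ (fld ξ x)).symm.trans ?_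
    refine congrArg _ ?_
    convert hα.symm <;> exact Subsingleton.elim _ _
  have h2 : IntermediateField.adjoin K ({ξ} ∪ Set.range x) = K⟮θ⟯ := by
    apply le_antisymm
    · rw [adjoin_le_iff]
      intro y hy
      have h3 : y ∈ fld ξ x := subset_adjoin ℚ _ hy
      rw [h1] at h3
      have h4 : ℚ⟮θ⟯ ≤ K⟮θ⟯.restrictScalars ℚ := by
        rw [adjoin_simple_le_iff]
        exact mem_adjoin_simple_self K _
      exact h4 h3
    · rw [adjoin_simple_le_iff]
      have h4 : fld ξ x ≤ (IntermediateField.adjoin K ({ξ} ∪ Set.range x)).restrictScalars ℚ := by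
        unfold fld
        rw [adjoin_le_iff]
        exact subset_adjoin K _
      refine h4 ?_
      rw [h1]
      exact mem_adjoin_simple_self ℚ _
  have : Algebra.IsAlgebraic ℚ Ω := Algebra.IsAlgebraic.trans ℚ K Ω
  unfold dgr
  rw [h1, h2]
  exact Pool.Agent.H69.BD.degQ_le K Ω θ a (Algebra.IsIntegral.isIntegral _) (Algebra.IsIntegral.isIntegral _)

end Pool.Agent.H11.BE
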