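import Pool.Agent.H11.BE.Main
import Pool.Agent.H11.BE.Lev
import Pool.Agent.H72.PB.OrbB

/-!
# Module FamY (MP_187c26_nt, THEOREM VR+): families of fields, extensions of bounded degree

`InTameY b P c L`: every finite subset of `L` lies in a field `K(ξ, x_1, …, x_r, y)`, `y` of degree at most `P` over
`K(ξ, x_1, …, x_r)`, with small index of the `ℤ[x_i]`.
-/

set_option autoImplicit false

open Polynomial NumberField IntermediateField

namespace Pool.Agent.H11.BE

open Pool.Agent.H69.BD (idxZ)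

variable {r : ℕ}

/-- Every finite subset of `L` lies in a field `K(ξ, x_1, …, x_r, y)`, `ξ ^ n = 1`, `x_i ^ m_i = b_i`, `n`, `m_1 b_1`, …, `m_r b_r`
pairwise coprime, `∑ i, log (idxZ (x i)) / m_i ≤ c` and `y` of degree at most `P` over `K(ξ, x_1, …, x_r)`. -/
def InTameY {K Ω : Type} [Field K] [Field Ω] [CharZero Ω] [Algebra K Ω] (b : Fin r → ℕ) (P : ℕ)
    (c : ℝ) (L : IntermediateField K Ω) : Prop :=
  ∀ S : Finset Ω, (∀ s ∈ S, s ∈ L) → ∃ (n : ℕ) (m : Fin r → ℕ) (ξ : Ω) (x : Fin r → Ω) (y : Ω),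
    1 ≤ n ∧ (∀ i, 1 ≤ m i) ∧ (∀ i, Nat.Coprime n (m i * b i)) ∧
    (∀ i j, i ≠ j → Nat.Coprime (m i * b i) (m j * b j)) ∧ ξ ^ n = 1 ∧
    (∀ i, x i ^ m i = (b i : Ω)) ∧ ∑ i, Real.log (idxZ (x i)) / m i ≤ c ∧
    (∃ p : Polynomial (IntermediateField.adjoin K ({ξ} ∪ Set.range x)), p ≠ 0 ∧
      p.natDegree ≤ P ∧ Polynomial.aeval y p = 0) ∧
    ∀ s ∈ S, s ∈ IntermediateField.adjoin K ({ξ} ∪ Set.range x ∪ {y})

theorem deg_le_range (L M Ω : Type) [Field L] [Field M] [Field Ω] [Algebra L Ω] [Algebra M Ω]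
    (a : Ω) (ha : IsIntegral L a)
    (h : ∀ i, ∃ z : M, algebraMap M Ω z = algebraMap L Ω ((minpoly L a).coeff i)) :
    (minpoly M a).natDegree ≤ (minpoly L a).natDegree := by
  have hl : (minpoly L a).map (algebraMap L Ω) ∈ lifts (algebraMap M Ω) := by
    rw [lifts_iff_coeff_lifts]
    intro i
    rw [coeff_map]
    exact h i
  obtain ⟨q, hq, hqd⟩ := exists_natDegree_eq_of_mem_lifts hl
  rw [natDegree_map] at hqd
  rw [← hqd]
  have hq0 : q ≠ 0 := by
    rintro rfl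
    rw [Polynomial.map_zero] at hq
    exact map_ne_zero (f := algebraMap L Ω) (minpoly.ne_zero ha) hq.symm
  have hev : aeval a q = 0 := by
    rw [aeval_def, ← eval_map, hq, eval_map, ← aeval_def]
    exact minpoly.aeval L a
  exact natDegree_le_natDegree (minpoly.degree_le_of_ne_zero M a hq0 hev)

theorem deg_mul_le (N Ω : Type) [Field N] [Field Ω] [Algebra N Ω] (y a : Ω) (hy : IsIntegral N y)
    (ha : IsIntegral N a) :
    (minpoly N a).natDegree ≤ (minpoly N y).natDegree * (minpoly N⟮y⟯ a).natDegree := by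
  have : FiniteDimensional N N⟮y⟯ := adjoin.finiteDimensional hy
  have haK : IsIntegral N⟮y⟯ a := ha.tower_top
  have : FiniteDimensional N⟮y⟯ N⟮y⟯⟮a⟯ := adjoin.finiteDimensional haK
  have : FiniteDimensional N N⟮y⟯⟮a⟯ := FiniteDimensional.trans N N⟮y⟯ N⟮y⟯⟮a⟯
  have htow : IsScalarTower N N⟮y⟯⟮a⟯ Ω := IsScalarTower.of_algebraMap_eq fun z => rfl
  have h2 : minpoly N (AdjoinSimple.gen N⟮y⟯ a) = minpoly N a := by
    have h6 := minpoly.algebraMap_eq (A := N) (B := N⟮y⟯⟮a⟯) (B' := Ω)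
      (algebraMap N⟮y⟯⟮a⟯ Ω).injective (AdjoinSimple.gen N⟮y⟯ a)
    rw [← h6]
    rfl
  rw [← h2, ← adjoin.finrank hy, ← adjoin.finrank haK, Module.finrank_mul_finrank]
  exact minpoly.natDegree_le _

theorem famY (b : Fin r → ℕ) (hb : ∀ i, 2 ≤ b i) (hs : ∀ i, Squarefree (b i)) (E : ℕ)
    (hT : T0 r b E) : ∃ c : ℝ, 0 < c ∧
    ∀ (K Ω : Type) [Field K] [NumberField K] [Field Ω] [CharZero Ω] [Algebra K Ω]
      [Algebra.IsAlgebraic K Ω] (P : ℕ) (L : IntermediateField K Ω), InTameY b P c L →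
      ∀ a : Ω, a ≠ 0 → Module.finrank ℚ K * (minpoly L a).natDegree * P ≤ E →
      absLogHeight₁ a < c → InG b a := by
  classical
  obtain ⟨c, hc, h⟩ := hT
  refine ⟨c, hc, ?_⟩
  intro K Ω _ _ _ _ _ _ P L hL a ha0 hdeg hh
  have : Algebra.IsAlgebraic ℚ Ω := Algebra.IsAlgebraic.trans ℚ K Ω
  have haL : IsIntegral L a := (Algebra.IsIntegral.isIntegral (R := K) a).tower_top
  obtain ⟨n, m, ξ, x, y, hn, hm, hcn, hcm, hξ, hx, hidx, ⟨p, hp0, hpP, hpy⟩, hmem⟩ := hL
    ((minpoly L a).coeffs.image fun z : L => (z : Ω)) (by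
      intro s hs
      rw [Finset.mem_image] at hs
      obtain ⟨z, -, rfl⟩ := hs
      exact z.2)
  have hfo : IsOfFinOrder ξ := isOfFinOrder_iff_pow_eq_one.2 ⟨n, by omega, hξ⟩
  have hdvd : orderOf ξ ∣ n := orderOf_dvd_of_pow_eq_one hξ
  have hS : Sys b (orderOf ξ) m ξ x :=
    { hn := hfo.orderOf_pos
      hm := hm
      two := hb
      sqf := hs
      cn := fun i => Nat.Coprime.coprime_dvd_left hdvd (hcn i)
      cm := hcm
      prim := IsPrimitiveRoot.orderOf ξ
      hx := hx }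
  have hfin : FiniteDimensional ℚ (fld ξ x) := by
    unfold fld
    have hf : Finite (({ξ} ∪ Set.range x : Set Ω)) :=
      ((Set.finite_singleton ξ).union (Set.finite_range x)).to_subtype
    refine IntermediateField.finiteDimensional_adjoin (S := {ξ} ∪ Set.range x) ?_
    rintro y (hy | ⟨i, rfl⟩)
    · rw [Set.mem_singleton_iff] at hy
      rw [hy]
      exact hS.isIntegral_xi
    · exact hS.isIntegral_x i
  set N : IntermediateField K Ω := IntermediateField.adjoin K ({ξ} ∪ Set.range x) with hN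
  have hyN : IsIntegral N y := (Algebra.IsIntegral.isIntegral (R := K) y).tower_top
  have haN : IsIntegral N a := (Algebra.IsIntegral.isIntegral (R := K) a).tower_top
  have hle : ∀ s ∈ IntermediateField.adjoin K ({ξ} ∪ Set.range x ∪ {y}), s ∈ N⟮y⟯ := by
    intro s hs
    have h1 : IntermediateField.adjoin K ({ξ} ∪ Set.range x ∪ {y}) ≤
        N⟮y⟯.restrictScalars K := by
      rw [IntermediateField.adjoin_le_iff]
      rintro z (hz | hz)
      · have hzN : z ∈ N := IntermediateField.subset_adjoin K _ hz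
        exact N⟮y⟯.algebraMap_mem ⟨z, hzN⟩
      · rw [Set.mem_singleton_iff] at hz
        rw [hz]
        exact mem_adjoin_simple_self N y
    exact h1 hs
  have h1 : (minpoly N⟮y⟯ a).natDegree ≤ (minpoly L a).natDegree := by
    refine deg_le_range L N⟮y⟯ Ω a haL fun i => ?_
    by_cases h0 : (minpoly L a).coeff i = 0
    · exact ⟨0, by rw [h0, map_zero, map_zero]⟩
    · exact ⟨⟨_, hle _ (hmem _ (Finset.mem_image_of_mem _ (coeff_mem_coeffs h0)))⟩, rfl⟩
  have h2 : (minpoly N y).natDegree ≤ P :=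
    (natDegree_le_natDegree (minpoly.degree_le_of_ne_zero N y hp0 hpy)).trans hpP
  have h3 := deg_mul_le N Ω y a hyN haN
  refine h Ω (orderOf ξ) m ξ x a hS ha0 ?_ hidx hh
  refine (deg_lev K Ω ξ x hfin a).trans ((Nat.mul_le_mul_left _ (h3.trans
    (Nat.mul_le_mul h2 h1))).trans ?_)
  refine le_trans (le_of_eq ?_) hdeg
  ring

end Pool.Agent.H11.BE
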