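import Pool.Agent.H69.BD.Vmain
import Pool.Agent.H72.BE.Cla

/-!
# THEOREM VR+ (MP_187c26_nt): systems of radicals and roots of unity, the interfaces of the final induction

`Sys b n m ξ x`: `ξ` a primitive `n`-th root of unity, `x_i ^ m_i = b_i`, `b_i ≥ 2` squarefree, `n`, `m_1 b_1, …, m_r b_r` pairwise
coprime. `fld ξ x = ℚ(ξ, x_1, …, x_r)`, `fF ξ x` the same field as an extension of `ℚ(ξ)`, `gen ξ x i = x i` as an element of it.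
`dgr ξ x α` the degree of `α` over it. `InG b α`: a power of `α` is in the group generated by the `b_i`.
-/

set_option autoImplicit false

open IntermediateField NumberField

namespace Pool.Agent.H11.BE

open Pool.Agent.H69.BD (idxZ)

variable {r : ℕ} {Ω : Type} [Field Ω] [CharZero Ω]

/-- A system of radicals and a primitive root of unity with coprime data. -/
structure Sys (b : Fin r → ℕ) (n : ℕ) (m : Fin r → ℕ) (ξ : Ω) (x : Fin r → Ω) : Prop where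
  hn : 1 ≤ n
  hm : ∀ i, 1 ≤ m i
  two : ∀ i, 2 ≤ b i
  sqf : ∀ i, Squarefree (b i)
  cn : ∀ i, Nat.Coprime n (m i * b i)
  cm : ∀ i j, i ≠ j → Nat.Coprime (m i * b i) (m j * b j)
  prim : IsPrimitiveRoot ξ n
  hx : ∀ i, x i ^ m i = (b i : Ω)

/-- The field `ℚ(ξ, x_1, …, x_r)`. -/
noncomputable def fld (ξ : Ω) (x : Fin r → Ω) : IntermediateField ℚ Ω :=
  IntermediateField.adjoin ℚ ({ξ} ∪ Set.range x)

/-- The field `ℚ(ξ, x_1, …, x_r)` as an extension of `ℚ(ξ)`. -/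
noncomputable def fF (ξ : Ω) (x : Fin r → Ω) : IntermediateField ℚ⟮ξ⟯ Ω :=
  IntermediateField.adjoin ℚ⟮ξ⟯ (Set.range x)

/-- `x i` as an element of `fF ξ x`. -/
noncomputable def gen (ξ : Ω) (x : Fin r → Ω) (i : Fin r) : fF ξ x :=
  ⟨x i, IntermediateField.subset_adjoin _ _ ⟨i, rfl⟩⟩

/-- The degree of `α` over `ℚ(ξ, x_1, …, x_r)`. -/
noncomputable def dgr (ξ : Ω) (x : Fin r → Ω) (α : Ω) : ℕ := (minpoly (fld ξ x) α).natDegree

/-- A power of `α` lies in the group generated by the `b i`. -/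
def InG (b : Fin r → ℕ) (α : Ω) : Prop :=
  ∃ k : ℕ, 1 ≤ k ∧ ∃ j : Fin r → ℤ, α ^ k = ∏ i, (b i : Ω) ^ j i

/-- The sum of the normalised logarithms of the indices of `ℤ[x_i]`, `i ∈ T`. -/
noncomputable def idxS (m : Fin r → ℕ) (x : Fin r → Ω) (T : Finset (Fin r)) : ℝ :=
  ∑ i ∈ T, Real.log (idxZ (x i)) / m i

theorem Sys.isIntegral_xi {b : Fin r → ℕ} {n : ℕ} {m : Fin r → ℕ} {ξ : Ω} {x : Fin r → Ω}
    (h : Sys b n m ξ x) : IsIntegral ℚ ξ := by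
  refine IsIntegral.of_pow (n := n) (by have := h.hn; omega) ?_
  rw [h.prim.pow_eq_one]
  exact isIntegral_one

theorem Sys.isIntegral_x {b : Fin r → ℕ} {n : ℕ} {m : Fin r → ℕ} {ξ : Ω} {x : Fin r → Ω}
    (h : Sys b n m ξ x) (i : Fin r) : IsIntegral ℚ (x i) := by
  refine IsIntegral.of_pow (n := m i) (by have := h.hm i; omega) ?_
  rw [h.hx i]
  have : ((b i : ℕ) : Ω) = algebraMap ℚ Ω (b i : ℚ) := by simp
  rw [this]
  exact isIntegral_algebraMap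

theorem Sys.fin_A {b : Fin r → ℕ} {n : ℕ} {m : Fin r → ℕ} {ξ : Ω} {x : Fin r → Ω}
    (h : Sys b n m ξ x) : FiniteDimensional ℚ ℚ⟮ξ⟯ :=
  adjoin.finiteDimensional h.isIntegral_xi

theorem Sys.nf_A {b : Fin r → ℕ} {n : ℕ} {m : Fin r → ℕ} {ξ : Ω} {x : Fin r → Ω}
    (h : Sys b n m ξ x) : NumberField ℚ⟮ξ⟯ := by
  have := h.fin_A
  exact {}

theorem Sys.fin_F {b : Fin r → ℕ} {n : ℕ} {m : Fin r → ℕ} {ξ : Ω} {x : Fin r → Ω}
    (h : Sys b n m ξ x) : FiniteDimensional ℚ⟮ξ⟯ (fF ξ x) := by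
  refine IntermediateField.finiteDimensional_adjoin ?_
  rintro _ ⟨i, rfl⟩
  exact (h.isIntegral_x i).tower_top

theorem Sys.nf_F {b : Fin r → ℕ} {n : ℕ} {m : Fin r → ℕ} {ξ : Ω} {x : Fin r → Ω}
    (h : Sys b n m ξ x) : NumberField (fF ξ x) := by
  have := h.fin_A
  have := h.fin_F
  have : FiniteDimensional ℚ (fF ξ x) := FiniteDimensional.trans ℚ ℚ⟮ξ⟯ (fF ξ x)
  exact {}

/-- The result of S1 to S7 for `r ≥ 1` (core theorem): large exponents, constant degree, Frobenius lifts. -/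
def CoreStmt (r : ℕ) (b : Fin r → ℕ) (d : ℕ) : Prop :=
  ∃ (Q1 N : ℕ) (c : ℝ), 1 ≤ N ∧ 2 ^ (d + 1) < Q1 ∧ 0 < c ∧ ∀ (Ω : Type) [Field Ω] [CharZero Ω]
    [Algebra.IsAlgebraic ℚ Ω] (n : ℕ) (m : Fin r → ℕ) (ξ : Ω) (x : Fin r → Ω) (α : Ω),
    Sys b n m ξ x → (∀ i, N ≤ m i) → (∀ q : ℕ, q.Prime → Q1 ≤ q → q ≤ N → ¬ q ∣ n) → α ≠ 0 →
    (∀ k, 1 ≤ k → k ≤ N → dgr ξ x (α ^ k) = d) →
    idxS m x Finset.univ ≤ c → absLogHeight₁ α < c → InG b α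

/-- The descent in `n` at the prime `q`. -/
def DescStmt (r : ℕ) (d q : ℕ) : Prop :=
  ∃ c : ℝ, 0 < c ∧ ∀ (Ω : Type) [Field Ω] [CharZero Ω] [Algebra.IsAlgebraic ℚ Ω]
    (b : Fin r → ℕ) (n : ℕ) (m : Fin r → ℕ) (ξ : Ω) (x : Fin r → Ω) (α : Ω),
    Sys b n m ξ x → q ∣ n → α ≠ 0 → dgr ξ x α ≤ d → absLogHeight₁ α < c →
    ∃ (n' : ℕ) (ξ' z : Ω) (k : ℕ), 1 ≤ k ∧ z ^ k = 1 ∧ n' < n ∧ Sys b n' m ξ' x ∧
      dgr ξ' x (z * α) ≤ d

end Pool.Agent.H11.BE
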