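import Pool.Agent.H11.BE.Core
import Pool.Agent.H11.BE.FamY
import Pool.Agent.H72.BE.DesS

/-!
# Module All (MP_187c26_nt, THEOREM VR+): the theorem for all systems
-/

set_option autoImplicit false

namespace Pool.Agent.H11.BE

theorem all0 (r : ℕ) (b : Fin r → ℕ) (d : ℕ) : T0 r b d :=
  t0 core (fun r d q hq hdq => Pool.Agent.H72.BE.desc_stmt r d q hq hdq) r b d

theorem all (r : ℕ) (b : Fin r → ℕ) (E : ℕ) : TJ r b E :=
  tJ (t0 core (fun r d q hq hdq => Pool.Agent.H72.BE.desc_stmt r d q hq hdq)) r b E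

end Pool.Agent.H11.BE
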