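import Pool.Agent.H11.BE.Main
import Pool.Agent.H69.BE.TopR
import Pool.Agent.H72.BE.DatC
import Pool.Agent.H72.BE.Fro

/-!
# Module Core (MP_187c26_nt, THEOREM VR+): `CoreStmt` from the core theorem

`topR` for the field `FF ξ x` over `AA ξ`, embedded into `ℂ`; `Dat.rad`, `Dat.idx`, `frob_cyc`.
-/

set_option autoImplicit false

open Polynomial NumberField IntermediateField

namespace Pool.Agent.H11.BE

open Pool.Agent.H72.BE

variable {r : ℕ} {Ω : Type} [Field Ω] [CharZero Ω]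

theorem Sys.dat {b : Fin r → ℕ} {n : ℕ} {m : Fin r → ℕ} {ξ : Ω} {x : Fin r → Ω}
    (h : Sys b n m ξ x) : Dat b m n ξ x where
  two := h.two
  sqf := h.sqf
  cb := h.cm
  cn := h.cn
  hn := h.hn
  hm := h.hm
  prim := h.prim
  pow := h.hx

theorem core (r : ℕ) (b : Fin (r + 1) → ℕ) (d : ℕ) (hb : ∀ i, 2 ≤ b i)
    (hc : ∀ i j, i ≠ j → Nat.Coprime (b i) (b j)) (hd : 1 ≤ d) : CoreStmt (r + 1) b d := by
  obtain ⟨Q1, N, c, hQd, hN, hc0, htop⟩ := Pool.Agent.H69.BE.topR (by omega) b d hb hc hd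
  have hQ1 : 2 ^ (d + 1) < Q1 :=
    lt_of_lt_of_le (Nat.pow_lt_pow_right (by norm_num) (by omega)) hQd
  refine ⟨Q1, N, c, hN, hQ1, hc0, ?_⟩
  intro Ω _ _ _ n m ξ x α hS hNm hq hα hk hidx hh
  have hD := hS.dat
  have hm : ∀ i, NeZero (m i) := fun i => ⟨by have := hS.hm i; omega⟩
  have hn : NeZero n := ⟨by have := hS.hn; omega⟩
  have hA : NumberField (AA ξ) := hD.nf_A
  have hF : NumberField (FF ξ x) := hD.nf_F
  have hR := hD.rad
  have hI := hD.idx hR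
  have hcyc : IsCyclotomicExtension {n} ℚ (AA ξ) :=
    hS.prim.intermediateField_adjoin_isCyclotomicExtension ℚ
  let σ : Ω →ₐ[ℚ] ℂ := IsAlgClosed.lift
  let : Algebra (FF ξ x) ℂ := (σ.toRingHom.comp (algebraMap (FF ξ x) Ω)).toAlgebra
  let τ : Ω →ₐ[FF ξ x] ℂ := { σ.toRingHom with commutes' := fun r => rfl }
  have hfld : fld ξ x = FF ξ x := rfl
  have hmin : ∀ j : ℕ, (minpoly (FF ξ x) ((σ α) ^ j)).natDegree = dgr ξ x (α ^ j) := by
    intro j
    have h3 : minpoly (FF ξ x) (τ (α ^ j)) = minpoly (FF ξ x) (α ^ j) :=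
      minpoly.algHom_eq τ τ.injective _
    have h4 : τ (α ^ j) = (σ α) ^ j := map_pow σ α j
    rw [← h4, h3]
    rfl
  obtain ⟨k, s, t, hk1, hfin⟩ := htop m n (AA ξ) (FF ξ x) (xF ξ x) hR (σ α)
    ((Algebra.IsIntegral.isIntegral (R := ℚ) α).map σ) (by rw [Ne, map_eq_zero]; exact hα) hNm
    (fun j h1 h2 => by rw [hmin]; exact hk j h1 h2)
    (by
      have := Pool.Agent.H69.BD.height_comp σ.toRingHom α (Algebra.IsIntegral.isIntegral α)
      have h7 : σ.toRingHom α = σ α := rfl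
      rw [h7] at this
      rw [this]
      exact hh.le)
    (hI.trans (Real.exp_le_exp.2 (by
      rw [mul_comm c]
      exact mul_le_mul_of_nonneg_left hidx (Nat.cast_nonneg _))))
    (fun p hp h1 h2 => ⟨hq p hp h1 h2, by
      obtain ⟨σ', h3, -⟩ := frob_cyc n hS.hn (ξA ξ) (by
        refine IsPrimitiveRoot.of_map_of_injective (f := (AA ξ).val) ?_ (AA ξ).val.injective
        exact hS.prim) (adjoin_ξA ξ) p hp (hq p hp h1 h2)
      exact ⟨σ', h3⟩⟩)
  have hb0 : ∀ i, (b i : Ω) ≠ 0 := fun i => by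
    have := hb i
    exact_mod_cast (by omega : b i ≠ 0)
  refine ⟨k, hk1, fun i => (t i : ℤ) - s i, ?_⟩
  have h8 : α ^ k * ∏ i, (b i : Ω) ^ s i = ∏ i, (b i : Ω) ^ t i := by
    apply σ.injective
    rw [map_mul, map_pow, map_prod, map_prod]
    simp only [map_pow, map_natCast]
    exact hfin
  have h9 : ∏ i, (b i : Ω) ^ s i ≠ 0 := Finset.prod_ne_zero_iff.2 fun i _ => pow_ne_zero _ (hb0 i)
  rw [← mul_left_inj' h9, h8, ← Finset.prod_mul_distrib]
  refine Finset.prod_congr rfl fun i _ => ?_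
  rw [zpow_sub₀ (hb0 i), zpow_natCast, zpow_natCast, div_mul_cancel₀ _ (pow_ne_zero _ (hb0 i))]

end Pool.Agent.H11.BE
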