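import Pool.Agent.H11.BE.Def
import Pool.Agent.H72.PB.HNonneg
import Pool.Agent.H4.RR.AbsHeight
import Pool.Agent.H69.BD.Vfam

/-!
# Module Drop (MP_187c26_nt, THEOREM VR+): leaving out one radical, degrees, powers, roots of unity

`x' = fun j => x (i.succAbove j)` etc.
PROOFS. `sys_drop`: every field of `Sys` (`Fin.succAbove_right_injective` for `cm`). `dgr_drop`: `F' = fld ξ x'`, `F = fld ξ x`; `x_i ^ m_i = b_i ∈ F'`, so
`[F'(x_i) : F'] ≤ m_i` (`minpoly.natDegree_le…`: `x_i` is a root of `X ^ m_i - b_i`), `F ≤ F'(x_i)` (in fact equal) as sets, and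
`[F'(α) : F'] ≤ [F'(x_i, α) : F'] = [F'(x_i) : F'] [F'(x_i, α) : F'(x_i)] ≤ m_i [F(α) : F]`. Model: `degQ_mul` and `deg_le_of_coeff` in
`Pool/Agent/H69/BD/Vfam.lean` (the coefficients of `minpoly F α` lie in `F'(x_i)`). `inG_drop`: exponent `0` at `i` (`Fin.insertNth`, `Fin.prod_univ_succAbove`).
`idxS_drop`: `idxS` over `univ.erase i` or over a set `T` with `i ∉ T`: `Finset.sum_map`/`Finset.sum_bij` with `i.succAbove`.
`dgr_mono`: if `fld ξ x ≤ fld ξ' x` then `dgr ξ' x α ≤ dgr ξ x α`. `dgr_pow_le`: `α ^ k ∈ F(α)`. `inG_of_pow`, `inG_of_mul` (`z` a root of unity): multiply the exponents.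
`height_pow`: `absLogHeight₁ (α ^ k) = k * absLogHeight₁ α` (see `Pool/Agent/H4/RR` or `H11/HV`, `H72/PB` for the lemma), `height_mul_root`: a root of unity
has height `0`, and `h(z α)^k`: `(z α) ^ k = α ^ k`, so `k h(z α) = k h(α)`.
-/

set_option autoImplicit false

open Polynomial NumberField IntermediateField

namespace Pool.Agent.H11.BE

variable {r : ℕ} {Ω : Type} [Field Ω] [CharZero Ω]

theorem sys_drop (b : Fin (r + 1) → ℕ) (n : ℕ) (m : Fin (r + 1) → ℕ) (ξ : Ω)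
    (x : Fin (r + 1) → Ω) (h : Sys b n m ξ x) (i : Fin (r + 1)) :
    Sys (fun j => b (i.succAbove j)) n (fun j => m (i.succAbove j)) ξ
      (fun j => x (i.succAbove j)) where
  hn := h.hn
  hm := fun _ => h.hm _
  two := fun _ => h.two _
  sqf := fun _ => h.sqf _
  cn := fun _ => h.cn _
  cm := fun j k hjk => h.cm _ _ (fun h2 => hjk (Fin.succAbove_right_injective h2))
  prim := h.prim
  hx := fun _ => h.hx _

private theorem dr_deg_le {A B Ω : Type} [Field A] [Field B] [Field Ω] [Algebra A Ω] [Algebra B Ω] (a : Ω)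
    (ha : IsIntegral A a)
    (h : ∀ i, algebraMap A Ω ((minpoly A a).coeff i) ∈ Set.range (algebraMap B Ω)) :
    (minpoly B a).natDegree ≤ (minpoly A a).natDegree := by
  have hl : (minpoly A a).map (algebraMap A Ω) ∈ lifts (algebraMap B Ω) := by
    rw [lifts_iff_coeff_lifts]
    intro i
    rw [coeff_map]
    exact h i
  obtain ⟨q, hq, hqd⟩ := exists_natDegree_eq_of_mem_lifts hl
  rw [natDegree_map] at hqd
  rw [← hqd]
  have hq0 : q ≠ 0 := by
    rintro rfl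
    rw [Polynomial.map_zero] at hq
    exact map_ne_zero (f := algebraMap A Ω) (minpoly.ne_zero ha) hq.symm
  have hev : aeval a q = 0 := by
    rw [aeval_def, ← eval_map, hq, eval_map, ← aeval_def]
    exact minpoly.aeval A a
  exact natDegree_le_natDegree (minpoly.degree_le_of_ne_zero B a hq0 hev)

private theorem dr_mul {A Ω : Type} [Field A] [Field Ω] [Algebra A Ω] (x a : Ω) (hx : IsIntegral A x)
    (ha : IsIntegral A a) :
    (minpoly A a).natDegree ≤ (minpoly A x).natDegree * (minpoly A⟮x⟯ a).natDegree := by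
  have : FiniteDimensional A A⟮x⟯ := adjoin.finiteDimensional hx
  have haK : IsIntegral A⟮x⟯ a := ha.tower_top
  have : FiniteDimensional A⟮x⟯ A⟮x⟯⟮a⟯ := adjoin.finiteDimensional haK
  have : FiniteDimensional A A⟮x⟯⟮a⟯ := FiniteDimensional.trans A A⟮x⟯ A⟮x⟯⟮a⟯
  have : IsScalarTower A A⟮x⟯⟮a⟯ Ω := IsScalarTower.of_algebraMap_eq fun _ => rfl
  have h2 : minpoly A (AdjoinSimple.gen A⟮x⟯ a) = minpoly A a := by
    have h6 := minpoly.algebraMap_eq (A := A) (B := A⟮x⟯⟮a⟯) (B' := Ω)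
      (algebraMap A⟮x⟯⟮a⟯ Ω).injective (AdjoinSimple.gen A⟮x⟯ a)
    rw [← h6]
    rfl
  rw [← h2, ← adjoin.finrank hx, ← adjoin.finrank haK, Module.finrank_mul_finrank]
  exact minpoly.natDegree_le _

theorem dgr_drop [Algebra.IsAlgebraic ℚ Ω] (b : Fin (r + 1) → ℕ) (n : ℕ) (m : Fin (r + 1) → ℕ)
    (ξ : Ω) (x : Fin (r + 1) → Ω) (h : Sys b n m ξ x) (i : Fin (r + 1)) (α : Ω) :
    dgr ξ (fun j => x (i.succAbove j)) α ≤ m i * dgr ξ x α := by
  unfold dgr
  obtain ⟨F', hF'⟩ : ∃ F', F' = fld ξ (fun j => x (i.succAbove j)) := ⟨_, rfl⟩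
  rw [← hF']
  have hxi : IsIntegral F' (x i) := (Algebra.IsIntegral.isIntegral (R := ℚ) (x i)).tower_top
  have hai : IsIntegral F' α := (Algebra.IsIntegral.isIntegral (R := ℚ) α).tower_top
  have haL : IsIntegral (fld ξ x) α := (Algebra.IsIntegral.isIntegral (R := ℚ) α).tower_top
  refine (dr_mul (x i) α hxi hai).trans (Nat.mul_le_mul ?_ ?_)
  · have h1 : (aeval (x i)) (X ^ m i - C ((b i : ℕ) : F')) = 0 := by
      rw [map_sub, map_pow, aeval_X, h.hx i, aeval_C, map_natCast, sub_self]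
    have h2 : (X ^ m i - C ((b i : ℕ) : F')) ≠ 0 := X_pow_sub_C_ne_zero (h.hm i) _
    have h3 := natDegree_le_natDegree (minpoly.degree_le_of_ne_zero F' (x i) h2 h1)
    rwa [natDegree_X_pow_sub_C] at h3
  · refine dr_deg_le α haL fun j => ?_
    have h4 : fld ξ x ≤ (F'⟮x i⟯).restrictScalars ℚ := by
      unfold fld
      rw [adjoin_le_iff]
      have h6 : ∀ y ∈ F', y ∈ F'⟮x i⟯ := fun y hy => (F'⟮x i⟯).algebraMap_mem ⟨y, hy⟩
      rintro y (hy | ⟨l, rfl⟩)
      · refine h6 y ?_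
        rw [hF']
        exact subset_adjoin _ _ (Or.inl hy)
      · rcases Fin.eq_self_or_eq_succAbove i l with h5 | ⟨l', h5⟩
        · rw [h5]
          exact mem_adjoin_simple_self F' (x i)
        · refine h6 _ ?_
          rw [hF', h5]
          exact subset_adjoin _ _ (Or.inr ⟨l', rfl⟩)
    exact ⟨⟨_, h4 ((minpoly (fld ξ x) α).coeff j).2⟩, rfl⟩

theorem inG_drop (b : Fin (r + 1) → ℕ) (i : Fin (r + 1)) (α : Ω)
    (h : InG (fun j => b (i.succAbove j)) α) : InG b α := by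
  obtain ⟨k, hk, j, hj⟩ := h
  refine ⟨k, hk, i.insertNth (α := fun _ => ℤ) 0 j, ?_⟩
  rw [Fin.prod_univ_succAbove _ i, Fin.insertNth_apply_same, zpow_zero, one_mul, hj]
  refine Finset.prod_congr rfl fun l _ => ?_
  rw [Fin.insertNth_apply_succAbove]

theorem idxS_drop (m : Fin (r + 1) → ℕ) (x : Fin (r + 1) → Ω) (i : Fin (r + 1))
    (T : Finset (Fin r)) :
    idxS (fun j => m (i.succAbove j)) (fun j => x (i.succAbove j)) T =
      idxS m x (T.map i.succAboveEmb) := by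
  unfold idxS
  rw [Finset.sum_map]
  rfl

/-- Every term of the sum of the normalised logarithms is nonnegative. -/
theorem idxS_mono (m : Fin r → ℕ) (x : Fin r → Ω) (S T : Finset (Fin r)) (h : S ⊆ T) :
    idxS m x S ≤ idxS m x T := by
  unfold idxS
  refine Finset.sum_le_sum_of_subset_of_nonneg h fun i _ _ => ?_
  exact div_nonneg (Real.log_natCast_nonneg _) (Nat.cast_nonneg _)

theorem dgr_pow_le [Algebra.IsAlgebraic ℚ Ω] (ξ : Ω) (x : Fin r → Ω) (α : Ω) (k : ℕ) :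
    dgr ξ x (α ^ k) ≤ dgr ξ x α := by
  unfold dgr
  have haL : IsIntegral (fld ξ x) α := (Algebra.IsIntegral.isIntegral (R := ℚ) α).tower_top
  have : FiniteDimensional (fld ξ x) (fld ξ x)⟮α⟯ := adjoin.finiteDimensional haL
  have h2 : minpoly (fld ξ x) ((AdjoinSimple.gen (fld ξ x) α) ^ k) = minpoly (fld ξ x) (α ^ k) := by
    have h6 := minpoly.algebraMap_eq (A := fld ξ x) (B := (fld ξ x)⟮α⟯) (B' := Ω)
      (algebraMap (fld ξ x)⟮α⟯ Ω).injective ((AdjoinSimple.gen (fld ξ x) α) ^ k)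
    rw [← h6, map_pow]
    rfl
  rw [← h2, ← adjoin.finrank haL]
  exact minpoly.natDegree_le _

theorem dgr_pos [Algebra.IsAlgebraic ℚ Ω] (ξ : Ω) (x : Fin r → Ω) (α : Ω) :
    1 ≤ dgr ξ x α := by
  have h1 : IsIntegral (fld ξ x) α := (Algebra.IsIntegral.isIntegral (R := ℚ) α).tower_top
  exact minpoly.natDegree_pos h1

theorem inG_of_pow (b : Fin r → ℕ) (α : Ω) (k : ℕ) (hk : 1 ≤ k) (h : InG b (α ^ k)) :
    InG b α := by
  obtain ⟨l, hl, j, hj⟩ := h
  exact ⟨k * l, Nat.mul_pos hk hl, j, by rw [pow_mul, hj]⟩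

theorem inG_of_mul (b : Fin r → ℕ) (α z : Ω) (k : ℕ) (hk : 1 ≤ k) (hz : z ^ k = 1)
    (h : InG b (z * α)) : InG b α := by
  obtain ⟨l, hl, j, hj⟩ := h
  refine ⟨k * l, Nat.mul_pos hk hl, fun i => k * j i, ?_⟩
  have h1 : α ^ (k * l) = ((z * α) ^ l) ^ k := by
    rw [← pow_mul, mul_pow, mul_comm l k, pow_mul z, hz, one_pow, one_mul]
  rw [h1, hj, ← Finset.prod_pow]
  refine Finset.prod_congr rfl fun i _ => ?_
  rw [← zpow_natCast, ← zpow_mul, mul_comm (j i)]

theorem height_pow [Algebra.IsAlgebraic ℚ Ω] (α : Ω) (k : ℕ) :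
    absLogHeight₁ (α ^ k) = k * absLogHeight₁ α :=
  Pool.Agent.H4.RR.absLogHeight_pow Ω α (Algebra.IsIntegral.isIntegral α) k

theorem height_mul_root [Algebra.IsAlgebraic ℚ Ω] (α z : Ω) (k : ℕ) (hk : 1 ≤ k)
    (hz : z ^ k = 1) : absLogHeight₁ (z * α) = absLogHeight₁ α := by
  have h1 := height_pow (z * α) k
  have h2 := height_pow α k
  rw [mul_pow, hz, one_mul] at h1
  rw [h1] at h2
  have hk' : (k : ℝ) ≠ 0 := by exact_mod_cast (by omega : k ≠ 0)
  exact mul_left_cancel₀ hk' h2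

end Pool.Agent.H11.BE
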