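import Pool.Agent.H11.BE.Main
import Pool.Agent.H11.BE.Lev
import Pool.Agent.H72.PB.OrbB

/-!
# Module Fam (MP_187c26_nt, THEOREM VR+): families of fields, all number fields `K`
-/

set_option autoImplicit false

open Polynomial NumberField IntermediateField

namespace Pool.Agent.H11.BE

open Pool.Agent.H69.BD (idxZ)

variable {r : ℕ}

/-- Every finite subset of `L` lies in a field `K(ξ, x_1, …, x_r)`, `ξ ^ n = 1`, `x_i ^ m_i = b_i`, `n`, `m_1 b_1`, …, `m_r b_r`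
pairwise coprime, with a set `J` of indices such that `∏ j ∈ J, m_j ≤ P` and `∑ i ∉ J, log (idxZ (x i)) / m_i ≤ c`. -/
def InTameR {K Ω : Type} [Field K] [Field Ω] [CharZero Ω] [Algebra K Ω] (b : Fin r → ℕ) (P : ℕ)
    (c : ℝ) (L : IntermediateField K Ω) : Prop :=
  ∀ S : Finset Ω, (∀ s ∈ S, s ∈ L) → ∃ (n : ℕ) (m : Fin r → ℕ) (ξ : Ω) (x : Fin r → Ω)
    (J : Finset (Fin r)), 1 ≤ n ∧ (∀ i, 1 ≤ m i) ∧ (∀ i, Nat.Coprime n (m i * b i)) ∧
    (∀ i j, i ≠ j → Nat.Coprime (m i * b i) (m j * b j)) ∧ ξ ^ n = 1 ∧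
    (∀ i, x i ^ m i = (b i : Ω)) ∧ ∏ j ∈ J, m j ≤ P ∧
    ∑ i ∈ Jᶜ, Real.log (idxZ (x i)) / m i ≤ c ∧
    ∀ s ∈ S, s ∈ IntermediateField.adjoin K ({ξ} ∪ Set.range x)

theorem famR (b : Fin r → ℕ) (hb : ∀ i, 2 ≤ b i) (hs : ∀ i, Squarefree (b i)) (E : ℕ)
    (hT : TJ r b E) : ∃ c : ℝ, 0 < c ∧
    ∀ (K Ω : Type) [Field K] [NumberField K] [Field Ω] [CharZero Ω] [Algebra K Ω]
      [Algebra.IsAlgebraic K Ω] (P : ℕ) (L : IntermediateField K Ω), InTameR b P c L →
      ∀ a : Ω, a ≠ 0 → Module.finrank ℚ K * (minpoly L a).natDegree * P ≤ E →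
      absLogHeight₁ a < c → InG b a := by
  classical
  obtain ⟨c, hc, h⟩ := hT
  refine ⟨c, hc, ?_⟩
  intro K Ω _ _ _ _ _ _ P L hL a ha0 hdeg hh
  have : Algebra.IsAlgebraic ℚ Ω := Algebra.IsAlgebraic.trans ℚ K Ω
  have haL : IsIntegral L a := (Algebra.IsIntegral.isIntegral (R := K) a).tower_top
  obtain ⟨n, m, ξ, x, J, hn, hm, hcn, hcm, hξ, hx, hP, hidx, hmem⟩ := hL
    ((minpoly L a).coeffs.image fun z : L => (z : Ω)) (by
      intro s hs
      rw [Finset.mem_image] at hs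
      obtain ⟨z, -, rfl⟩ := hs
      exact z.2)
  have hfo : IsOfFinOrder ξ := isOfFinOrder_iff_pow_eq_one.2 ⟨n, by omega, hξ⟩
  have hdvd : orderOf ξ ∣ n := orderOf_dvd_of_pow_eq_one hξ
  have hS : Sys b (orderOf ξ) m ξ x :=
    { hn := hfo.orderOf_pos
      hm := hm
      two := hb
      sqf := hs
      cn := fun i => Nat.Coprime.coprime_dvd_left hdvd (hcn i)
      cm := hcm
      prim := IsPrimitiveRoot.orderOf ξ
      hx := hx }
  have hfin : FiniteDimensional ℚ (fld ξ x) := by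
    unfold fld
    have hf : Finite (({ξ} ∪ Set.range x : Set Ω)) :=
      ((Set.finite_singleton ξ).union (Set.finite_range x)).to_subtype
    refine IntermediateField.finiteDimensional_adjoin (S := {ξ} ∪ Set.range x) ?_
    rintro y (hy | ⟨i, rfl⟩)
    · rw [Set.mem_singleton_iff] at hy
      rw [hy]
      exact hS.isIntegral_xi
    · exact hS.isIntegral_x i
  have h1 : (minpoly (IntermediateField.adjoin K ({ξ} ∪ Set.range x)) a).natDegree ≤
      (minpoly L a).natDegree := by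
    refine Pool.Agent.H69.BD.deg_le_of_coeff L _ a haL fun i => ?_
    by_cases h0 : (minpoly L a).coeff i = 0
    · rw [h0, ZeroMemClass.coe_zero]
      exact zero_mem _
    · exact hmem _ (Finset.mem_image_of_mem _ (coeff_mem_coeffs h0))
  refine h Ω (orderOf ξ) m ξ x a J hS ha0 ?_ hidx hh
  refine (Nat.mul_le_mul ((deg_lev K Ω ξ x hfin a).trans (Nat.mul_le_mul_left _ h1)) hP).trans hdeg

end Pool.Agent.H11.BE
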