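import Pool.Agent.H11.BE.Def
import Pool.Agent.H11.FR.Index
import Pool.Agent.H69.BD.Vidx

/-!
# Module Idx (MP_187c26_nt, THEOREM VR+): the index of the order `𝓞_{ℚ(ξ)}[x_1, …, x_r]`

MODEL: the second half of the proof of `main_index` in `Pool/Agent/H11/FR/Index.lean` (from elements of `A` to the end), with
`K = ℚ`, `k i = 1`, no extraction of roots (`y_i`, `x_i` there are here `b_i`, `x_i`).
PROOF, inside `Ω`. Let `A₀ = intOf ℚ⟮ξ⟯ ⊔ Subring.closure (Set.range x)` (subring of `Ω`; `intOf` from `Pool.Agent.H4.OG`: the integers of a field), for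
`T ⊂ Fin r` `A_T = intOf ℚ⟮ξ⟯ ⊔ Subring.closure {x j : j ∈ T}`; `O i = intOf ℚ⟮x i⟯`, `B i = ordOf ℚ (x i) = ℤ[x_i]`.
(1) `A₀` is a finite `ℤ`-module: it is contained in the integers of the number field `fF ξ x`.
(2) For each `i`, with `T = univ \ {i}`: `A₀ = A_T ⊔ Subring.closure {x i}`, `x_i ^ m_i = b_i ∈ A_T`, the powers `1, x_i, …, x_i ^ (m_i - 1)` are linearly
independent over `A_T`: `A_T` is contained in the `ℚ⟮ξ⟯`-span of the monomials `x ^ l` with `l_i = 0`, and `hR.li`. `log_relIndex_sup_le A_T A₀ (x i) (m i) …`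
with `s = 1`, `k = 1`, `μ = m i` gives `[A₀ O_i : A₀] ≠ 0` and `log [A₀ O_i : A₀] ≤ 1 · card (A₀ →+* ℂ) · (log (ordIdx ℚ (x i)) / m i)`.
`card (A₀ →+* ℂ) = [F : ℚ]`: the field generated by `A₀` is (the image of) `F`, every ring homomorphism `A₀ →+* ℂ` extends uniquely to its field of
fractions; or only `≤`: restriction `(F →+* ℂ) → (A₀ →+* ℂ)` is surjective (extend to the fraction field `IsLocalization.lift`; `A₀ ⊂ F` and every
element of `F` is a quotient of two elements of `A₀`, as `A₀` contains `ℤ`, `ξ`, the `x_i`), and `card (F →+* ℂ) = finrank ℚ F`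
(`NumberField.Embeddings.card`). See how `Index.lean` and `Gen.lean` use this cardinality.
(3) `multi` (`Multi.lean`) with `d i = m i * b i` (`ordOf_kill`: `m_i b_i O_i ⊂ B_i ⊂ A₀`), pairwise coprime in `A₀`: for `R = A₀ ⊔ ⨆ O_i`:
`[R : A₀] ≠ 0`, `log [R : A₀] ≤ ∑_i log [A₀ O_i : A₀] ≤ [F : ℚ] ∑_i log (ordIdx ℚ (x i)) / m i`.
(4) `comp` (`Comp.lean`) for the family `Option (Fin r)` (`ξ`, exponent `n`, value `1`; `x_i`, exponent `m_i`, value `b_i`): the integers of
`ℚ(ξ, x_1, …, x_r)` lie in `R` (exactly as in `Index.lean`; the coprimality in `𝓞 ℚ` from `Nat.Coprime` : `Nat.isCoprime_iff_coprime` mapped to `𝓞 ℚ`).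
(5) Transfer: the inclusion `F → Ω` maps `hR.zx` onto a subgroup which contains `A₀`: `y ∈ zx` iff all coordinates `co y l` are integral; the set of
these `y` is exactly the image of `A₀`: `A₀ = ∑_l intOf ℚ⟮ξ⟯ · x ^ l`. For the bound only `A₀ ≤ zx ≤ ints F ≤ R` is needed:
`[ints F : zx]` divides `[ints F : A₀]`, which is at most `[R : A₀]`: `zx` contains `intOf ℚ⟮ξ⟯` and the `x_i` and is closed under multiplication
(`Pool/Agent/H72/BE/Co.lean`: `mon_mul_mem`, `one_mem`, `smul_mem`, or directly), so it contains `A₀`;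
`AddSubgroup.relIndex_dvd_of_le_left` and `AddSubgroup.relIndex_map_map_of_injective` for the inclusion `F → Ω`.
(6) `idxZ x = ordIdx ℚ x`: `Pool.Agent.H69.BD.idxZ_eq_ordIdx`.
-/

set_option autoImplicit false

open Polynomial NumberField IntermediateField

namespace Pool.Agent.H11.BE

open Pool.Agent.H72.BE (Rad)
open Pool.Agent.H72.BD (ints)

variable {r : ℕ} {Ω : Type} [Field Ω] [CharZero Ω]

theorem idx_sys [Algebra.IsAlgebraic ℚ Ω] (b : Fin r → ℕ) (n : ℕ) (m : Fin r → ℕ)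
    [∀ i, NeZero (m i)] (ξ : Ω)
    (x : Fin r → Ω) [NumberField ℚ⟮ξ⟯] [NumberField (fF ξ x)] (h : Sys b n m ξ x)
    (hR : Rad b m ℚ⟮ξ⟯ (fF ξ x) (gen ξ x)) :
    hR.zx.relIndex (ints (fF ξ x)) ≠ 0 ∧
      Real.log (hR.zx.relIndex (ints (fF ξ x)) : ℕ) ≤
        Module.finrank ℚ (fF ξ x) * idxS m x Finset.univ := by
  sorry

end Pool.Agent.H11.BE
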