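import Pool.Agent.H11.BE.Def

/-!
# Module Irr (MP_187c26_nt, THEOREM VR+): `X ^ m - b` is irreducible over a number field with a Frobenius lift at `p ∣ b`

PROOF. `O = 𝓞 A`.
(1) `red`: if `y : O` and `p ∣ y ^ 2` then `p ∣ y`: `p ∣ y ^ p` (`p ≥ 2`), `σ y = y ^ p + p c` is divisible by `p` in `O` (`σ` maps integers to
integers). `σ : A →+* A` is injective and `A` is finite over `ℚ`, so `σ` is surjective (it is `ℚ`-linear:
`LinearMap.surjective_of_injective`) and `σ⁻¹` maps integers to integers: `σ (y / p) = σ y / p` is integral, so `y / p` is integral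
(`isIntegral_algHom_iff` for `σ` as `ℤ`-algebra homomorphism suffices: `IsIntegral ℤ (σ w) ↔ IsIntegral ℤ w` for injective `σ`).
(2) Let `P` be a maximal ideal of `O` with `p ∈ P` (`p` is not a unit of `O`: `1 / p` is not integral; or: `Ideal.exists_le_maximal` for
`span {p} ≠ ⊤`). Claim: `(p : O) ∉ P ^ 2`. Otherwise `span {p} ≤ P ^ 2`, i.e. `P ^ 2 ∣ span {p}` (`Ideal.dvd_iff_le`): `span {p} = P ^ 2 * I`. Let
`y ∈ P * I`: `y ^ 2 ∈ (P * I) ^ 2 = P ^ 2 * I * I ≤ span {p}`, so `y ∈ span {p}` by (1). So `P * I ≤ span {p} = P ^ 2 * I = P * (P * I)`, so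
`P * (P * I) = P * I` and, as `P * I ≠ ⊥` (`span {p} ≠ ⊥`), cancellation of ideals of a Dedekind domain gives `P = ⊤`: contradiction.
(3) `b = p b'` with `¬ p ∣ b'` (`Squarefree`). `b ∈ P`; `b ∉ P ^ 2`: from `u b' + v p = 1` in `ℤ` (coprime) `p = u b' p + v p ^ 2 = u b + v p ^ 2`, so
`b ∈ P ^ 2` gives `p ∈ P ^ 2`.
(4) `f = X ^ m - C (b : O)` is Eisenstein at `P`: leading coefficient `1 ∉ P`, the coefficients in degrees `< m` are `- b` (degree `0`) and `0`,
constant coefficient `- b ∉ P ^ 2`. `Polynomial.IsEisensteinAt.irreducible` (`P` prime, `f` monic so primitive, degree `m > 0`), and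
`Polynomial.Monic.irreducible_iff_irreducible_map_fraction_map` to go from `O` to `A`; `Polynomial.map (algebraMap O A) f = X ^ m - C (b : A)`.
-/

set_option autoImplicit false

open Polynomial NumberField

namespace Pool.Agent.H11.BE

private theorem red {A : Type} [Field A] [NumberField A] {p : ℕ} (hp : p.Prime) {σ : A →+* A}
    (hσ : Pool.Agent.H72.BE.Frob A p σ) (y : 𝓞 A) (h : (p : 𝓞 A) ∣ y ^ 2) : (p : 𝓞 A) ∣ y := by
  obtain ⟨e, he⟩ := h
  obtain ⟨c, hc⟩ := hσ y
  have hp0 : (p : A) ≠ 0 := by exact_mod_cast hp.ne_zero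
  set w : A := (y : A) / p with hw
  have h1 : σ w = ((e * y ^ (p - 2) + c : 𝓞 A) : A) := by
    have he' : ((y : A)) ^ 2 = p * (e : A) := by
      have := congrArg (fun t : 𝓞 A => (t : A)) he
      simpa using this
    rw [hw, map_div₀, map_natCast, hc, div_eq_iff hp0]
    have h2 : (y : A) ^ p = (y : A) ^ 2 * (y : A) ^ (p - 2) := by
      rw [← pow_add]; congr 1; have := hp.two_le; omega
    rw [h2, he']
    push_cast
    ring
  have h3 : IsIntegral ℤ w := by
    rw [← isIntegral_algHom_iff (σ.toIntAlgHom) σ.injective]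
    change IsIntegral ℤ (σ w)
    rw [h1]
    exact RingOfIntegers.isIntegral_coe _
  obtain ⟨wi, hwi⟩ : ∃ wi : 𝓞 A, (wi : A) = w := ⟨⟨w, h3⟩, rfl⟩
  refine ⟨wi, ?_⟩
  apply RingOfIntegers.ext
  have hwi' : algebraMap (𝓞 A) A wi = w := hwi
  change algebraMap (𝓞 A) A y = algebraMap (𝓞 A) A (p * wi)
  rw [map_mul, map_natCast, hwi', hw]
  change _ = (p : A) * (algebraMap (𝓞 A) A y / p)
  field_simp

theorem irr_frob (A : Type) [Field A] [NumberField A] (b m p : ℕ) (hs : Squarefree b)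
    (hp : p.Prime) (hpb : p ∣ b) (hm : 1 ≤ m) (σ : A →+* A) (hσ : Pool.Agent.H72.BE.Frob A p σ) :
    Irreducible (X ^ m - C (b : A) : A[X]) := by
  have hpz : (Ideal.span {(p : ℤ)}).IsMaximal :=
    PrincipalIdealRing.isMaximal_of_irreducible (Nat.prime_iff_prime_int.1 hp).irreducible
  obtain ⟨P, hPm, hPc⟩ := Ideal.exists_ideal_over_maximal_of_isIntegral (S := 𝓞 A) (Ideal.span {(p : ℤ)}) (by
    rw [(RingHom.injective_iff_ker_eq_bot _).1 (FaithfulSMul.algebraMap_injective ℤ (𝓞 A))]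
    exact bot_le)
  have hpP : (p : 𝓞 A) ∈ P := by
    have : (p : ℤ) ∈ P.comap (algebraMap ℤ (𝓞 A)) := by rw [hPc]; exact Ideal.mem_span_singleton_self _
    simpa using this
  have hp0 : (p : 𝓞 A) ≠ 0 := by exact_mod_cast hp.ne_zero
  have hpP2 : (p : 𝓞 A) ∉ P ^ 2 := by
    intro hc
    have h1 : P ^ 2 ∣ Ideal.span {(p : 𝓞 A)} := by
      rw [Ideal.dvd_iff_le, Ideal.span_le]; simpa using hc
    obtain ⟨I, hI⟩ := h1
    have h2 : P * I ≤ Ideal.span {(p : 𝓞 A)} := by
      intro y hy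
      rw [Ideal.mem_span_singleton]
      apply red hp hσ y
      rw [← Ideal.mem_span_singleton, hI]
      have : y ^ 2 ∈ (P * I) ^ 2 := Ideal.pow_mem_pow hy 2
      rw [mul_pow, pow_two I, ← mul_assoc] at this
      have h7 : P ^ 2 * I * I ≤ P ^ 2 * I := Ideal.mul_le_left
      exact h7 this
    have h6 : P ^ 2 * I = P * (P * I) := by rw [pow_two, mul_assoc]
    have h3 : P * I = Ideal.span {(p : 𝓞 A)} := by
      apply le_antisymm h2
      rw [hI, h6]
      exact Ideal.mul_le_right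
    have hne : P * I ≠ 0 := by
      rw [h3]
      intro h0
      apply hp0
      rw [Ideal.zero_eq_bot, Ideal.span_singleton_eq_bot] at h0
      exact h0
    have h4 : P * (P * I) = 1 * (P * I) := by
      rw [one_mul, ← h6, ← hI, h3]
    have h5 : P = 1 := mul_right_cancel₀ hne h4
    exact hPm.ne_top (by rw [h5, Ideal.one_eq_top])
  obtain ⟨b', hb'⟩ := hpb
  have hcop : Nat.Coprime b' p := by
    rw [Nat.coprime_comm, hp.coprime_iff_not_dvd]
    rintro ⟨t, ht⟩
    have : p * p ∣ b := ⟨t, by rw [hb', ht]; ring⟩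
    exact hp.one_lt.ne' (Nat.isUnit_iff.1 (hs p this))
  have hbP : (b : 𝓞 A) ∈ P := by
    rw [hb']; push_cast; exact P.mul_mem_right _ hpP
  have hbP2 : (b : 𝓞 A) ∉ P ^ 2 := by
    intro hc
    apply hpP2
    obtain ⟨u, v, huv⟩ := (Nat.isCoprime_iff_coprime.2 hcop)
    have h1 : (p : 𝓞 A) = (u : 𝓞 A) * (b : 𝓞 A) + (v : 𝓞 A) * (p : 𝓞 A) ^ 2 := by
      have h2 : (u : 𝓞 A) * (b' : 𝓞 A) + (v : 𝓞 A) * (p : 𝓞 A) = 1 := by exact_mod_cast huv
      rw [hb']; push_cast
      calc (p : 𝓞 A) = p * ((u : 𝓞 A) * (b' : 𝓞 A) + (v : 𝓞 A) * (p : 𝓞 A)) := by rw [h2, mul_one]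
        _ = _ := by ring
    rw [h1]
    exact Ideal.add_mem _ (Ideal.mul_mem_left _ _ hc) (Ideal.mul_mem_left _ _ (Ideal.pow_mem_pow hpP 2))
  have hm0 : m ≠ 0 := by omega
  set f : (𝓞 A)[X] := X ^ m - C (b : 𝓞 A) with hf
  have hfm : f.Monic := monic_X_pow_sub_C _ hm0
  have hfd : f.natDegree = m := natDegree_X_pow_sub_C
  have hE : f.IsEisensteinAt P := by
    refine hfm.isEisensteinAt_of_mem_of_notMem hPm.ne_top ?_ ?_
    · intro n hn
      rw [hfd] at hn
      rw [hf, coeff_sub, coeff_X_pow, if_neg (by omega), zero_sub, neg_mem_iff, coeff_C]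
      split_ifs
      · exact hbP
      · exact P.zero_mem
    · rw [hf, coeff_sub, coeff_X_pow, if_neg (by omega), zero_sub, neg_mem_iff, coeff_C_zero]
      exact hbP2
  have hirr : Irreducible f := hE.irreducible hPm.isPrime hfm.isPrimitive (by rw [hfd]; omega)
  have := (Monic.irreducible_iff_irreducible_map_fraction_map (K := A) hfm).1 hirr
  have e : f.map (algebraMap (𝓞 A) A) = X ^ m - C (b : A) := by
    rw [hf, Polynomial.map_sub, Polynomial.map_pow, map_X, map_C, map_natCast]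
  rwa [e] at this

end Pool.Agent.H11.BE
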