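import Pool.Agent.H11.BE.Zero

/-!
# Module Main (MP_187c26_nt, THEOREM VR+): the induction on `(r, d)`

`T0 r b d`: there is `c > 0` with `α ∈ Γ_b` for all systems with `idxS m x univ ≤ c` and all `α ≠ 0` with `dgr ξ x α ≤ d`, `h(α) < c`.
-/

set_option autoImplicit false

open Polynomial NumberField IntermediateField

namespace Pool.Agent.H11.BE

/-- The theorem for all systems with small index. -/
def T0 (r : ℕ) (b : Fin r → ℕ) (d : ℕ) : Prop :=
  ∃ c : ℝ, 0 < c ∧ ∀ (Ω : Type) [Field Ω] [CharZero Ω]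
    [Algebra.IsAlgebraic ℚ Ω] (n : ℕ) (m : Fin r → ℕ) (ξ : Ω) (x : Fin r → Ω) (α : Ω),
    Sys b n m ξ x → α ≠ 0 → dgr ξ x α ≤ d → idxS m x Finset.univ ≤ c → absLogHeight₁ α < c →
    InG b α

/-- The theorem for all systems with bounded product of the exponents in `J` and small index of the other radicals. -/
def TJ (r : ℕ) (b : Fin r → ℕ) (E : ℕ) : Prop :=
  ∃ c : ℝ, 0 < c ∧ ∀ (Ω : Type) [Field Ω] [CharZero Ω]
    [Algebra.IsAlgebraic ℚ Ω] (n : ℕ) (m : Fin r → ℕ) (ξ : Ω) (x : Fin r → Ω) (α : Ω)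
    (J : Finset (Fin r)), Sys b n m ξ x → α ≠ 0 → dgr ξ x α * ∏ j ∈ J, m j ≤ E →
    idxS m x Jᶜ ≤ c → absLogHeight₁ α < c → InG b α

theorem exists_min {ι : Type} [Finite ι] (f : ι → ℝ) (hf : ∀ i, 0 < f i) :
    ∃ c : ℝ, 0 < c ∧ ∀ i, c ≤ f i := by
  classical
  have := Fintype.ofFinite ι
  rcases isEmpty_or_nonempty ι with h | h
  · exact ⟨1, one_pos, fun i => h.elim i⟩
  · obtain ⟨i₀, hi₀⟩ := Finite.exists_min f
    exact ⟨f i₀, hf i₀, hi₀⟩

/-- The induction. -/
theorem t0 (hcore : ∀ (r : ℕ) (b : Fin (r + 1) → ℕ) (d : ℕ), (∀ i, 2 ≤ b i) →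
      (∀ i j, i ≠ j → Nat.Coprime (b i) (b j)) → 1 ≤ d → CoreStmt (r + 1) b d)
    (hdesc : ∀ (r d q : ℕ), q.Prime → 2 ^ (d + 1) < q → DescStmt r d q) :
    ∀ (r : ℕ) (b : Fin r → ℕ) (d : ℕ), T0 r b d := by
  intro r
  induction r with
  | zero =>
    intro b d
    obtain ⟨c, hc, h⟩ := zero b d
    exact ⟨c, hc, fun Ω _ _ _ n m ξ x α hS h0 hd _ hh => h Ω n m ξ x α hS h0 hd hh⟩
  | succ r ihr =>
    intro b d
    by_cases hb : (∀ i, 2 ≤ b i) ∧ (∀ i j, i ≠ j → Nat.Coprime (b i) (b j))
    swap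
    · refine ⟨1, one_pos, ?_⟩
      intro Ω _ _ _ n m ξ x α hS
      exact absurd ⟨hS.two, fun i j hij => Nat.Coprime.coprime_dvd_left (dvd_mul_left _ _)
        (Nat.Coprime.coprime_dvd_right (dvd_mul_left _ _) (hS.cm i j hij))⟩ hb
    induction d with
    | zero =>
      refine ⟨1, one_pos, ?_⟩
      intro Ω _ _ _ n m ξ x α hS h0 hd
      have := dgr_pos ξ x α
      omega
    | succ d ihd =>
      obtain ⟨cd, hcd, hd'⟩ := ihd
      obtain ⟨Q1, N, c0, hN, hQ1, hc0, hcore'⟩ := hcore r b (d + 1) hb.1 hb.2 (by omega)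
      choose ci hci hdrop using fun i : Fin (r + 1) =>
        ihr (fun j => b (i.succAbove j)) (N * (d + 1))
      have hdesc' : ∀ q : {q : ℕ // q.Prime ∧ Q1 ≤ q ∧ q ≤ N}, DescStmt (r + 1) (d + 1) q.1 :=
        fun q => hdesc _ _ _ q.2.1 (lt_of_lt_of_le hQ1 q.2.2.1)
      choose cq hcq hdq using hdesc'
      have hfin : Finite {q : ℕ // q.Prime ∧ Q1 ≤ q ∧ q ≤ N} := by
        refine Set.Finite.to_subtype ((Set.finite_Iic N).subset ?_)
        intro q hq
        exact hq.2.2
      obtain ⟨c1, hc1, hc1'⟩ := exists_min ci hci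
      obtain ⟨c2, hc2, hc2'⟩ := exists_min cq hcq
      have hNpos : (0 : ℝ) < N := by exact_mod_cast hN
      refine ⟨min (min c0 (cd / N)) (min c1 c2), by positivity, ?_⟩
      intro Ω _ _ _ n
      induction n using Nat.strong_induction_on with
      | _ n ihn =>
      intro m ξ x α hS h0 hdeg hidx hh
      have hh0 : absLogHeight₁ α < c0 :=
        hh.trans_le ((min_le_left _ _).trans (min_le_left _ _))
      have hhd : absLogHeight₁ α < cd / N :=
        hh.trans_le ((min_le_left _ _).trans (min_le_right _ _))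
      by_cases hsm : ∃ i, m i < N
      · obtain ⟨i, hi⟩ := hsm
        refine inG_drop b i α (hdrop i Ω n _ ξ _ α (sys_drop b n m ξ x hS i) h0 ?_ ?_ ?_)
        · refine (dgr_drop b n m ξ x hS i α).trans ?_
          exact Nat.mul_le_mul hi.le hdeg
        · rw [idxS_drop]
          refine (idxS_mono m x _ _ (Finset.subset_univ _)).trans (hidx.trans ?_)
          exact ((min_le_right _ _).trans (min_le_left _ _)).trans (hc1' i)
        · exact hh.trans_le (((min_le_right _ _).trans (min_le_left _ _)).trans (hc1' i))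
      · push Not at hsm
        by_cases hk : ∀ k, 1 ≤ k → k ≤ N → dgr ξ x (α ^ k) = d + 1
        · by_cases hq : ∃ q : ℕ, q.Prime ∧ Q1 ≤ q ∧ q ≤ N ∧ q ∣ n
          · obtain ⟨q, hqp, hq1, hqN, hqn⟩ := hq
            obtain ⟨n', ξ', z, k, hk1, hz, hlt, hS', hdeg'⟩ :=
              hdq ⟨q, hqp, hq1, hqN⟩ Ω b n m ξ x α hS hqn h0 hdeg
                (hh.trans_le (((min_le_right _ _).trans (min_le_right _ _)).trans
                  (hc2' ⟨q, hqp, hq1, hqN⟩)))
            have hz0 : z ≠ 0 := by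
              rintro rfl
              rw [zero_pow (by omega)] at hz
              exact zero_ne_one hz
            refine inG_of_mul b α z k hk1 hz (ihn n' hlt m ξ' x (z * α) hS'
              (mul_ne_zero hz0 h0) hdeg' hidx ?_)
            rw [height_mul_root α z k hk1 hz]
            exact hh
          · push Not at hq
            exact hcore' Ω n m ξ x α hS hsm (fun q hqp h1 h2 h3 => hq q hqp h1 h2 h3) h0 hk
              (hidx.trans ((min_le_left _ _).trans (min_le_left _ _))) hh0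
        · push Not at hk
          obtain ⟨k, hk1, hkN, hkd⟩ := hk
          have h1 := (dgr_pow_le ξ x α k).trans hdeg
          refine inG_of_pow b α k hk1 (hd' Ω n m ξ x (α ^ k) hS (pow_ne_zero _ h0) (by omega) ?_ ?_)
          · refine hidx.trans ((min_le_left _ _).trans ((min_le_right _ _).trans ?_))
            rw [div_le_iff₀ hNpos]
            have : (1 : ℝ) ≤ N := by exact_mod_cast hN
            nlinarith
          · rw [height_pow]
            rw [lt_div_iff₀ hNpos] at hhd
            have h2 : (k : ℝ) ≤ N := by exact_mod_cast hkN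
            have h3 : 0 ≤ absLogHeight₁ α := by
              exact Pool.Agent.H72.PB.ht_nonneg α
            nlinarith

/-- The form with small exponents. -/
theorem tJ (h0 : ∀ (r : ℕ) (b : Fin r → ℕ) (d : ℕ), T0 r b d) :
    ∀ (r : ℕ) (b : Fin r → ℕ) (E : ℕ), TJ r b E := by
  classical
  intro r
  induction r with
  | zero =>
    intro b E
    obtain ⟨c, hc, h⟩ := h0 0 b E
    refine ⟨c, hc, ?_⟩
    intro Ω _ _ _ n m ξ x α J hS hα hE hidx hh
    have hJ : J = ∅ := Finset.eq_empty_of_isEmpty J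
    subst hJ
    rw [Finset.prod_empty, mul_one] at hE
    rw [Finset.compl_empty] at hidx
    exact h Ω n m ξ x α hS hα hE hidx hh
  | succ r ihr =>
    intro b E
    obtain ⟨c0, hc0, h⟩ := h0 (r + 1) b E
    choose ci hci hdrop using fun i : Fin (r + 1) => ihr (fun j => b (i.succAbove j)) E
    obtain ⟨c1, hc1, hc1'⟩ := exists_min ci hci
    refine ⟨min c0 c1, lt_min hc0 hc1, ?_⟩
    intro Ω _ _ _ n m ξ x α J hS hα hE hidx hh
    rcases J.eq_empty_or_nonempty with hJ | ⟨i, hi⟩
    · subst hJ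
      rw [Finset.prod_empty, mul_one] at hE
      rw [Finset.compl_empty] at hidx
      exact h Ω n m ξ x α hS hα hE (hidx.trans (min_le_left _ _)) (hh.trans_le (min_le_left _ _))
    · set J' : Finset (Fin r) := Finset.univ.filter fun j => i.succAbove j ∈ J with hJ'
      have hJmap : J'.map i.succAboveEmb = J.erase i := by
        ext k
        rw [Finset.mem_map, Finset.mem_erase]
        constructor
        · rintro ⟨j, hj, rfl⟩
          rw [hJ', Finset.mem_filter] at hj
          exact ⟨Fin.succAbove_ne i j, hj.2⟩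
        · rintro ⟨hk1, hk2⟩
          obtain ⟨j, rfl⟩ := Fin.exists_succAbove_eq hk1
          exact ⟨j, by rw [hJ', Finset.mem_filter]; exact ⟨Finset.mem_univ _, hk2⟩, rfl⟩
      have hCmap : J'ᶜ.map i.succAboveEmb ⊆ Jᶜ := by
        intro k hk
        rw [Finset.mem_map] at hk
        obtain ⟨j, hj, rfl⟩ := hk
        rw [Finset.mem_compl, hJ', Finset.mem_filter] at hj
        rw [Finset.mem_compl]
        exact fun h2 => hj ⟨Finset.mem_univ _, h2⟩
      refine inG_drop b i α (hdrop i Ω n _ ξ _ α J' (sys_drop b n m ξ x hS i) hα ?_ ?_ ?_)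
      · have h1 : ∏ j ∈ J', m (i.succAbove j) = ∏ k ∈ J.erase i, m k := by
          rw [← hJmap, Finset.prod_map]
          rfl
        have h2 : m i * ∏ k ∈ J.erase i, m k = ∏ k ∈ J, m k := Finset.mul_prod_erase J m hi
        rw [h1]
        calc dgr ξ (fun j => x (i.succAbove j)) α * ∏ k ∈ J.erase i, m k ≤
            (m i * dgr ξ x α) * ∏ k ∈ J.erase i, m k :=
              Nat.mul_le_mul_right _ (dgr_drop b n m ξ x hS i α)
          _ = dgr ξ x α * ∏ k ∈ J, m k := by rw [← h2]; ring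
          _ ≤ E := hE
      · rw [idxS_drop]
        exact ((idxS_mono m x _ _ hCmap).trans hidx).trans ((min_le_right _ _).trans (hc1' i))
      · exact hh.trans_le ((min_le_right _ _).trans (hc1' i))

end Pool.Agent.H11.BE
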