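import Pool.Agent.H11.BE.Irr

/-!
# Module Rad (MP_187c26_nt, THEOREM VR+): the monomials `x ^ l` are a basis of `ℚ(ξ, x_1, …, x_r)` over `ℚ(ξ)`

PROOF. `A = ℚ⟮ξ⟯`, `F = fF ξ x`, `M = ∏ m_i`.
(1) For every `i` there is a prime `p ∣ b_i` (`b_i ≥ 2`, `Nat.exists_prime_and_dvd`); `¬ p ∣ n` as `n`, `m_i b_i` are coprime. `hfrob` and `irr_frob`:
`X ^ m_i - b_i` is irreducible over `A`, so it is `minpoly A (gen ξ x i)` (`minpoly.eq_of_irreducible_of_monic`), and
`[A(x_i) : A] = m_i` (`adjoin.finrank`), so `m_i ∣ [F : A]` (`Module.finrank_mul_finrank` for `A ≤ A(x_i) ≤ F`, inside the field `F`: use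
`A⟮gen ξ x i⟯` as an intermediate field of `F / A`).
(2) The `m_i` are pairwise coprime (`cm`: `m_i b_i`, `m_j b_j` are coprime), so `M ∣ [F : A]` (`Finset.prod_dvd_of_coprime` or
`Finset.prod_dvd_of_isRelPrime`).
(3) The monomials `mon (gen ξ x) (vl l)`, `l : Gm m`, span `F` over `A`: `F = A(x_1, …, x_r)` is the algebra generated by the `x_i` (integral elements:
`IntermediateField.adjoin_toSubalgebra_of_integral` or `IntermediateField.adjoin_algebraic_toSubalgebra`), `Algebra.adjoin_eq_span`/induction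
(`Algebra.adjoin_induction`): the span of the monomials contains `1` (`l = 0`) and is closed under multiplication:
`mon (vl l) mon (vl l') = mon (vl l + vl l')`, and `x_i ^ a = b_i ^ (a / m_i) x_i ^ (a % m_i)`. So `[F : A] ≤ M`
(`finrank_le_of_span_eq_top` / `finrank_range_le_card`; `Fintype.card (Gm m) = M` by `Fintype.card_pi`, `ZMod.card`).
(4) `[F : A] = M` (`Nat.le_of_dvd` and (3), both positive), and a spanning family of `[F : A]` elements is linearly independent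
(`linearIndependent_of_top_le_span_of_card_eq_finrank`).
The field `pow`: `gen ξ x i ^ m i = b i` from `h.hx` (`Subtype.ext`). `cop`: `Nat.Coprime (b i) (b j)` from `cm` (`Nat.Coprime.coprime_dvd_left` …).
-/

set_option autoImplicit false

open Polynomial NumberField IntermediateField

namespace Pool.Agent.H11.BE

open Pool.Agent.H72.BE (Rad Frob)

variable {r : ℕ} {Ω : Type} [Field Ω] [CharZero Ω]

theorem rad_sys (b : Fin r → ℕ) (n : ℕ) (m : Fin r → ℕ) [∀ i, NeZero (m i)] (ξ : Ω)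
    (x : Fin r → Ω) [NumberField ℚ⟮ξ⟯] [NumberField (fF ξ x)] (h : Sys b n m ξ x)
    (hfrob : ∀ q : ℕ, q.Prime → ¬ q ∣ n → ∃ σ : ℚ⟮ξ⟯ →+* ℚ⟮ξ⟯, Frob ℚ⟮ξ⟯ q σ) :
    Rad b m ℚ⟮ξ⟯ (fF ξ x) (gen ξ x) := by
  classical
  have hfd : FiniteDimensional ℚ⟮ξ⟯ (fF ξ x) := h.fin_F
  have hm0 : ∀ i, m i ≠ 0 := fun i => by have := h.hm i; omega
  -- the powers
  have hpow : ∀ i, gen ξ x i ^ m i = ((b i : ℕ) : fF ξ x) := by
    intro i
    apply Subtype.ext
    have h1 : ((gen ξ x i ^ m i : fF ξ x) : Ω) = x i ^ m i := rfl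
    rw [h1, h.hx i]
    simp
  have hint : ∀ i, IsIntegral ℚ⟮ξ⟯ (gen ξ x i) := fun i => Algebra.IsIntegral.isIntegral _
  -- the degrees
  have hdvd : ∀ i, m i ∣ Module.finrank ℚ⟮ξ⟯ (fF ξ x) := by
    intro i
    obtain ⟨q, hq, hqb⟩ := Nat.exists_prime_and_dvd (n := b i) (by have := h.two i; omega)
    have hqn : ¬ q ∣ n := by
      intro hqn
      have h1 : q ∣ Nat.gcd n (m i * b i) := Nat.dvd_gcd hqn (Dvd.dvd.mul_left hqb _)
      rw [h.cn i] at h1
      exact hq.one_lt.ne' (Nat.dvd_one.1 h1)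
    obtain ⟨σ, hσ⟩ := hfrob q hq hqn
    have hirr := irr_frob ℚ⟮ξ⟯ (b i) (m i) q (h.sqf i) hq hqb (h.hm i) σ hσ
    have hroot : aeval (gen ξ x i) (X ^ m i - C ((b i : ℕ) : ℚ⟮ξ⟯) : ℚ⟮ξ⟯[X]) = 0 := by
      rw [map_sub, map_pow, aeval_X, aeval_C, hpow i, map_natCast, sub_self]
    have hmin := minpoly.eq_of_irreducible_of_monic hirr hroot
      (monic_X_pow_sub_C _ (hm0 i))
    have h2 := minpoly.degree_dvd (hint i)
    rw [← hmin, natDegree_X_pow_sub_C] at h2
    exact h2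
  have hpd : ∏ i, m i ∣ Module.finrank ℚ⟮ξ⟯ (fF ξ x) := by
    refine Fintype.prod_dvd_of_isRelPrime ?_ hdvd
    intro i j hij
    have h1 := h.cm i j hij
    exact Nat.coprime_iff_isRelPrime.1
      ((h1.coprime_dvd_left (Dvd.intro _ rfl)).coprime_dvd_right (Dvd.intro _ rfl))
  -- the span of the monomials
  obtain ⟨W, hW⟩ : ∃ W : Submodule ℚ⟮ξ⟯ (fF ξ x), W =
      Submodule.span ℚ⟮ξ⟯ (Set.range fun l : Pool.Agent.H72.BE.Gm m =>
        Pool.Agent.H72.BE.mon (gen ξ x) (Pool.Agent.H72.BE.vl l)) := ⟨_, rfl⟩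
  have hmon : ∀ a : Fin r → ℕ, Pool.Agent.H72.BE.mon (gen ξ x) a ∈ W := by
    intro a
    have h1 : Pool.Agent.H72.BE.mon (gen ξ x) a =
        (((∏ i, b i ^ (a i / m i) : ℕ)) : ℚ⟮ξ⟯) •
          Pool.Agent.H72.BE.mon (gen ξ x) (Pool.Agent.H72.BE.vl (Pool.Agent.H72.BE.md m a)) := by
      rw [Algebra.smul_def, map_natCast, Nat.cast_prod]
      unfold Pool.Agent.H72.BE.mon Pool.Agent.H72.BE.vl Pool.Agent.H72.BE.md
      rw [← Finset.prod_mul_distrib]
      refine Finset.prod_congr rfl fun i _ => ?_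
      rw [Nat.cast_pow, ← hpow i, ← pow_mul, ← pow_add, ZMod.val_natCast, Nat.div_add_mod]
    rw [h1, hW]
    exact Submodule.smul_mem _ _ (Submodule.subset_span ⟨_, rfl⟩)
  have hone : (1 : fF ξ x) ∈ W := by
    have h1 := hmon 0
    have h2 : Pool.Agent.H72.BE.mon (gen ξ x) 0 = 1 := by
      unfold Pool.Agent.H72.BE.mon
      simp
    rwa [h2] at h1
  have hmm : ∀ y z, y ∈ W → z ∈ W → y * z ∈ W := by
    intro y z hy hz
    have h1 : y * z ∈ W * W := Submodule.mul_mem_mul hy hz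
    have h2 : W * W ≤ W := by
      conv_lhs => rw [hW, Submodule.span_mul_span]
      rw [Submodule.span_le]
      rintro _ ⟨_, ⟨l, rfl⟩, _, ⟨l', rfl⟩, rfl⟩
      have h3 := hmon (Pool.Agent.H72.BE.vl l + Pool.Agent.H72.BE.vl l')
      have h4 : Pool.Agent.H72.BE.mon (gen ξ x) (Pool.Agent.H72.BE.vl l +
          Pool.Agent.H72.BE.vl l') = Pool.Agent.H72.BE.mon (gen ξ x) (Pool.Agent.H72.BE.vl l) *
          Pool.Agent.H72.BE.mon (gen ξ x) (Pool.Agent.H72.BE.vl l') := by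
        unfold Pool.Agent.H72.BE.mon
        rw [← Finset.prod_mul_distrib]
        refine Finset.prod_congr rfl fun i _ => ?_
        rw [Pi.add_apply, pow_add]
      rwa [h4] at h3
    exact h2 h1
  have hgen : ∀ i, gen ξ x i ∈ W := by
    intro i
    have h1 := hmon (Pi.single i 1)
    have h2 : Pool.Agent.H72.BE.mon (gen ξ x) (Pi.single i 1) = gen ξ x i := by
      unfold Pool.Agent.H72.BE.mon
      rw [Finset.prod_eq_single i]
      · rw [Pi.single_eq_same, pow_one]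
      · intro j _ hj
        rw [Pi.single_eq_of_ne hj, pow_zero]
      · intro hi
        exact absurd (Finset.mem_univ i) hi
    rwa [h2] at h1
  have htop : ∀ y : fF ξ x, y ∈ W := by
    intro y
    have h1 : (y : Ω) ∈ (IntermediateField.adjoin ℚ⟮ξ⟯ (Set.range x)).toSubalgebra := y.2
    rw [IntermediateField.adjoin_toSubalgebra_of_isAlgebraic (by
      rintro _ ⟨i, rfl⟩
      exact ((h.isIntegral_x i).tower_top (A := ℚ⟮ξ⟯)).isAlgebraic)] at h1
    have h2 : Algebra.adjoin ℚ⟮ξ⟯ (Set.range x) ≤ (W.toSubalgebra hone hmm).map (fF ξ x).val := by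
      refine Algebra.adjoin_le ?_
      rintro _ ⟨i, rfl⟩
      exact ⟨gen ξ x i, hgen i, rfl⟩
    obtain ⟨w, hw, hwy⟩ := h2 h1
    have h3 : w = y := Subtype.ext hwy
    rw [← h3]
    exact hw
  have hspan : (⊤ : Submodule ℚ⟮ξ⟯ (fF ξ x)) ≤
      Submodule.span ℚ⟮ξ⟯ (Set.range fun l : Pool.Agent.H72.BE.Gm m =>
        Pool.Agent.H72.BE.mon (gen ξ x) (Pool.Agent.H72.BE.vl l)) := by
    intro y _
    rw [← hW]
    exact htop y
  have hcard : Fintype.card (Pool.Agent.H72.BE.Gm m) = ∏ i, m i := by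
    rw [Fintype.card_pi]
    exact Finset.prod_congr rfl fun i _ => ZMod.card _
  have hle : Module.finrank ℚ⟮ξ⟯ (fF ξ x) ≤ ∏ i, m i := by
    have h1 := finrank_range_le_card (R := ℚ⟮ξ⟯) (fun l : Pool.Agent.H72.BE.Gm m =>
        Pool.Agent.H72.BE.mon (gen ξ x) (Pool.Agent.H72.BE.vl l))
    unfold Set.finrank at h1
    rw [eq_top_iff.2 hspan, finrank_top, hcard] at h1
    exact h1
  have hdeg : Module.finrank ℚ⟮ξ⟯ (fF ξ x) = ∏ i, m i :=
    le_antisymm hle (Nat.le_of_dvd Module.finrank_pos hpd)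
  refine ⟨h.two, ?_, hpow, hdeg, ?_⟩
  · intro i j hij
    exact ((h.cm i j hij).coprime_dvd_left (Dvd.intro_left _ rfl)).coprime_dvd_right
      (Dvd.intro_left _ rfl)
  · exact linearIndependent_of_top_le_span_of_card_eq_finrank hspan (by rw [hcard, hdeg])

end Pool.Agent.H11.BE
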