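import Pool.Agent.H11.BE.Drop
import Pool.Agent.H11.TH.IfaceK

/-!
# Module Zero (MP_187c26_nt, THEOREM VR+): no radicals (`r = 0`)

For every `d` there is `c > 0` such that every `α ≠ 0` of degree `≤ d` over `ℚ(ξ)`, `ξ` a root of unity, with `h(α) < c` is a root of
unity.
PROOF. `Ω₀ = AlgebraicClosure ℚ`. `Pool.Agent.H11.TH.bdd_lehmer` for `K = ℚ`, `Ω = Ω₀`, `Λ = ⊥`, `S = ∅`, `C = d`: `c > 0` with
`absLogHeight₁ γ ≥ c` for all `γ` with `γ ^ m ∉ ⊥` for all `m ≥ 1` and `dg (N₀ ℚ ⊥ ∅) γ ≤ d`. `N₀ ℚ ⊥ ∅` contains all roots of unity (definitions of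
`SRad`, `fld`, `N₀` in `Pool.Agent.H11.TH.Defs`: `x ∈ SRad Λ S` if `x ^ N t ∈ Λ` for a root of unity `t`, `N ≥ 1` with prime factors in `S`; `N = 1`,
`t = ξ⁻¹`). Given `Ω`, `ξ`, `α`: take an embedding `τ : Ω →ₐ[ℚ] Ω₀` (`IsAlgClosed.lift`); `τ ξ` is a root of unity, the image of `minpoly (fld ξ x) α` under `τ` is a
polynomial of degree `dgr ξ x α ≤ d` with coefficients in `N₀` and root `τ α`: `Pool.Agent.H72.PB.dg_le_of_poly` gives `dg N₀ (τ α) ≤ d`. (`Fin 0`: `fld ξ x = ℚ(ξ)`.)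
`absLogHeight₁ (τ α) = absLogHeight₁ α` (`height_comp` in `Pool/Agent/H69/BD/Vmain.lean` is for `ℂ`; the same proof with `Pool.Agent.H4.RR.absLogHeight_eq`).
If `h(α) < c` then `(τ α) ^ m = 1` for some `m ≥ 1`, so `α ^ m = 1`, which is `InG b α` with `k = m` (empty product).
-/

set_option autoImplicit false

open Polynomial NumberField IntermediateField

namespace Pool.Agent.H11.BE

private theorem zero_gal : IsGalois ℚ (AlgebraicClosure ℚ) := by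
  let A : Algebra ℚ (AlgebraicClosure ℚ) := AlgebraicClosure.instAlgebra ℚ
  have h : @IsGalois ℚ _ (AlgebraicClosure ℚ) _ A := by
    have h0 : @IsAlgClosure ℚ (AlgebraicClosure ℚ) _ _ A _ := by
      have : @IsAlgClosure ℚ (AlgebraicClosure ℚ) _ _ (AlgebraicClosure.instAlgebra ℚ) _ :=
        inferInstance
      exact this
    exact @IsAlgClosure.isGalois ℚ (AlgebraicClosure ℚ) _ _ A h0 _
  have e : A = DivisionRing.toRatAlgebra := Subsingleton.elim _ _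
  rw [← e]
  exact h

private theorem zero_hcomp {Ω Ω₀ : Type} [Field Ω] [CharZero Ω] [Field Ω₀] [CharZero Ω₀] (σ : Ω →+* Ω₀)
    (a : Ω) (ha : IsIntegral ℚ a) : absLogHeight₁ (σ a) = absLogHeight₁ a := by
  have : FiniteDimensional ℚ ℚ⟮a⟯ := adjoin.finiteDimensional ha
  have : NumberField ℚ⟮a⟯ := {}
  have h1 := Pool.Agent.H4.RR.absLogHeight_eq ℚ⟮a⟯ Ω (ℚ⟮a⟯.val : ℚ⟮a⟯ →+* Ω)
    (AdjoinSimple.gen ℚ a)
  have h2 := Pool.Agent.H4.RR.absLogHeight_eq ℚ⟮a⟯ Ω₀ (σ.comp (ℚ⟮a⟯.val : ℚ⟮a⟯ →+* Ω))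
    (AdjoinSimple.gen ℚ a)
  have h3 : (ℚ⟮a⟯.val : ℚ⟮a⟯ →+* Ω) (AdjoinSimple.gen ℚ a) = a := rfl
  have h4 : (σ.comp (ℚ⟮a⟯.val : ℚ⟮a⟯ →+* Ω)) (AdjoinSimple.gen ℚ a) = σ a := rfl
  rw [h3] at h1
  rw [h4] at h2
  rw [h1, h2]

private theorem zero_mem {Ω : Type} [Field Ω] [CharZero Ω] [Algebra.IsAlgebraic ℚ Ω]
    (τ : Ω →ₐ[ℚ] AlgebraicClosure ℚ) (n : ℕ) (hn : 1 ≤ n) (ξ : Ω) (hξ : ξ ^ n = 1) (x : Fin 0 → Ω) (c : Ω)
    (hc : c ∈ fld ξ x) :
    τ c ∈ Pool.Agent.H11.TH.N₀ ℚ (⊥ : Subgroup (AlgebraicClosure ℚ)ˣ) (∅ : Finset ℕ) := by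
  have h1 : fld ξ x ≤
      (Pool.Agent.H11.TH.N₀ ℚ (⊥ : Subgroup (AlgebraicClosure ℚ)ˣ) (∅ : Finset ℕ)).comap τ := by
    unfold fld
    rw [IntermediateField.adjoin_le_iff]
    rintro y (hy | ⟨i, _⟩)
    · have hy' : y = ξ := hy
      rw [hy']
      have h2 : τ ξ ∈ Pool.Agent.H11.TH.N₀ ℚ (⊥ : Subgroup (AlgebraicClosure ℚ)ˣ) (∅ : Finset ℕ) := by
        have h0 : ξ ≠ 0 := by
          rintro rfl
          rw [zero_pow (by omega)] at hξ
          exact zero_ne_one hξ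
        have h0' : τ ξ ≠ 0 := by rw [Ne, map_eq_zero]; exact h0
        refine IntermediateField.subset_adjoin ℚ _ ⟨Units.mk0 (τ ξ) h0', ?_, rfl⟩
        refine ⟨1, le_rfl, fun q hq h => ?_, (Units.mk0 (τ ξ) h0')⁻¹, ⟨n, hn, ?_⟩, ?_⟩
        · exact absurd (Nat.dvd_one.1 h) hq.one_lt.ne'
        · rw [inv_pow, inv_eq_one]
          apply Units.ext
          rw [Units.val_pow_eq_pow_val, Units.val_mk0, ← map_pow, hξ, map_one, Units.val_one]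
        · rw [pow_one, mul_inv_cancel]
          exact Subgroup.one_mem _
      exact h2
    · exact i.elim0
  exact h1 hc

theorem zero (b : Fin 0 → ℕ) (d : ℕ) : ∃ c : ℝ, 0 < c ∧ ∀ (Ω : Type) [Field Ω] [CharZero Ω]
    [Algebra.IsAlgebraic ℚ Ω] (n : ℕ) (m : Fin 0 → ℕ) (ξ : Ω) (x : Fin 0 → Ω) (α : Ω),
    Sys b n m ξ x → α ≠ 0 → dgr ξ x α ≤ d → absLogHeight₁ α < c → InG b α := by
  have hgal := zero_gal
  obtain ⟨c, hc, h⟩ := Pool.Agent.H11.TH.bdd_lehmer (K := ℚ) (Ω := AlgebraicClosure ℚ) ⊥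
    ⟨∅, by simp⟩ (∅ : Finset ℕ) (by simp) d
  refine ⟨c, hc, ?_⟩
  intro Ω _ _ _ n m ξ x α hs hα hd hh
  let τ : Ω →ₐ[ℚ] AlgebraicClosure ℚ := IsAlgClosed.lift
  have hα' : τ α ≠ 0 := by rw [Ne, map_eq_zero]; exact hα
  have hint : IsIntegral (fld ξ x) α := (Algebra.IsIntegral.isIntegral (R := ℚ) α).tower_top
  have hdg : Pool.Agent.H72.PB.dg (Pool.Agent.H11.TH.N₀ ℚ (⊥ : Subgroup (AlgebraicClosure ℚ)ˣ) (∅ : Finset ℕ))
      (τ α) ≤ d := by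
    let f : fld ξ x →+* AlgebraicClosure ℚ := (τ : Ω →+* AlgebraicClosure ℚ).comp (algebraMap (fld ξ x) Ω)
    have h1 := Pool.Agent.H72.PB.dg_le_of_poly
      (L := Pool.Agent.H11.TH.N₀ ℚ (⊥ : Subgroup (AlgebraicClosure ℚ)ˣ) (∅ : Finset ℕ)) (y := τ α)
      ((minpoly (fld ξ x) α).map f)
      (by rw [Ne, Polynomial.map_eq_zero]; exact minpoly.ne_zero hint)
      (fun i => by
        rw [Polynomial.coeff_map]
        exact zero_mem τ n hs.hn ξ hs.prim.pow_eq_one x _ ((minpoly (fld ξ x) α).coeff i).2)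
      (by
        rw [Polynomial.eval_map]
        have h2 := Polynomial.hom_eval₂ (minpoly (fld ξ x) α) (algebraMap (fld ξ x) Ω) (τ : Ω →+* AlgebraicClosure ℚ) α
        have h3 : Polynomial.eval₂ (algebraMap (fld ξ x) Ω) α (minpoly (fld ξ x) α) = 0 := minpoly.aeval _ _
        rw [h3, map_zero] at h2
        exact h2.symm)
    rw [Polynomial.natDegree_map] at h1
    exact h1.trans hd
  have hht : absLogHeight₁ (τ α) = absLogHeight₁ α :=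
    zero_hcomp (τ : Ω →+* AlgebraicClosure ℚ) α (Algebra.IsIntegral.isIntegral α)
  by_contra hcon
  have h4 := h (Units.mk0 (τ α) hα') (fun k hk hmem => ?_) hdg
  · rw [Units.val_mk0, hht] at h4
    exact absurd hh (not_lt.2 h4)
  · apply hcon
    refine ⟨k, hk, fun i => i.elim0, ?_⟩
    rw [Finset.univ_eq_empty, Finset.prod_empty]
    have h5 := congrArg Units.val (Subgroup.mem_bot.1 hmem)
    rw [Units.val_pow_eq_pow_val, Units.val_mk0, Units.val_one, ← map_pow] at h5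
    exact (τ : Ω →+* AlgebraicClosure ℚ).injective (h5.trans (map_one τ).symm)

end Pool.Agent.H11.BE
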